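import Mathlib

set_option autoImplicit false

/-!
# Projecting a compact set defined by one quadratic inequality

Helper file.  The projection is again defined by one quadratic inequality.
-/

namespace Pool.Agent.Y601.QP

open MvPolynomial

/-- the set defined by `P ≥ 0` is bounded -/
def Bd {σ : Type} (P : MvPolynomial σ ℝ) : Prop :=
  ∃ R : ℝ, ∀ p : σ → ℝ, 0 ≤ eval p P → ∀ a, |p a| ≤ R

/-- elimination of one variable -/
theorem elim_one {n : ℕ} (P : MvPolynomial (Fin (n + 1)) ℝ) (hP : P.totalDegree ≤ 2)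
    (hb : Bd P) :
    ∃ Q : MvPolynomial (Fin n) ℝ, Q.totalDegree ≤ 2 ∧
      ∀ s : Fin n → ℝ, (∃ x : ℝ, 0 ≤ eval (Fin.cons x s : Fin (n + 1) → ℝ) P) ↔ 0 ≤ eval s Q := by
  classical
  obtain ⟨R, hR⟩ := hb
  set f := finSuccEquiv ℝ n P with hf
  have hc : ∀ i, f.coeff i ≠ 0 → (f.coeff i).totalDegree + i ≤ 2 := fun i hi =>
    (totalDegree_coeff_finSuccEquiv_add_le P i hi).trans hP
  have hnat : f.natDegree < 3 := by
    rw [Nat.lt_succ_iff, Polynomial.natDegree_le_iff_coeff_eq_zero]
    intro N hN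
    by_contra h
    have := hc N h
    omega
  have h2 : ∃ a : ℝ, f.coeff 2 = C a := by
    by_cases h : f.coeff 2 = 0
    · exact ⟨0, by rw [h, map_zero]⟩
    · have := hc 2 h
      exact ⟨_, totalDegree_eq_zero_iff_eq_C.1 (by omega)⟩
  obtain ⟨a, ha⟩ := h2
  have hev : ∀ (x : ℝ) (s : Fin n → ℝ), eval (Fin.cons x s : Fin (n + 1) → ℝ) P =
      a * x ^ 2 + eval s (f.coeff 1) * x + eval s (f.coeff 0) := by
    intro x s
    rw [eval_eq_eval_mv_eval', Polynomial.eval_map, ← hf,
      Polynomial.eval₂_eq_sum_range' _ hnat, Finset.sum_range_succ, Finset.sum_range_succ,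
      Finset.sum_range_succ, ha]
    simp
    ring
  by_cases hS : ∃ p0 : Fin (n + 1) → ℝ, 0 ≤ eval p0 P
  swap
  · refine ⟨C (-1), by rw [totalDegree_C]; omega, ?_⟩
    intro s
    constructor
    · rintro ⟨x, hx⟩
      exact absurd ⟨_, hx⟩ hS
    · intro h
      rw [eval_C] at h
      linarith
  obtain ⟨p0, hp0⟩ := hS
  have ha0 : a < 0 := by
    by_contra hneg
    push Not at hneg
    set x0 := p0 0
    set s0 : Fin n → ℝ := Fin.tail p0
    have hp : p0 = (Fin.cons x0 s0 : Fin (n + 1) → ℝ) := (Fin.cons_self_tail p0).symm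
    rw [hp, hev] at hp0
    set b := eval s0 (f.coeff 1)
    set c := eval s0 (f.coeff 0)
    obtain ⟨e, he, he2⟩ : ∃ e : ℝ, e ^ 2 = 1 ∧ 0 ≤ e * (2 * a * x0 + b) := by
      rcases le_total 0 (2 * a * x0 + b) with h | h
      · exact ⟨1, by norm_num, by linarith⟩
      · exact ⟨-1, by norm_num, by linarith⟩
    have hval : ∀ t : ℝ, 0 ≤ t → |x0 + e * t| ≤ R := by
      intro t ht
      have h1 : 0 ≤ eval (Fin.cons (x0 + e * t) s0 : Fin (n + 1) → ℝ) P := by
        rw [hev]
        have h3 : a * (x0 + e * t) ^ 2 + b * (x0 + e * t) + c =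
            (a * x0 ^ 2 + b * x0 + c) + t * (e * (2 * a * x0 + b)) + a * (e ^ 2 * t ^ 2) := by
          ring
        change 0 ≤ a * (x0 + e * t) ^ 2 + b * (x0 + e * t) + c
        rw [h3, he]
        have h4 : 0 ≤ t * (e * (2 * a * x0 + b)) := mul_nonneg ht he2
        have h5 : 0 ≤ a * (1 * t ^ 2) := by positivity
        linarith
      have h2 := hR _ h1 0
      simpa using h2
    have hk := hval (|x0| + |R| + 1) (by positivity)
    have he1 : |e| = 1 := by
      have : |e| ^ 2 = 1 := by rw [sq_abs]; exact he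
      nlinarith [abs_nonneg e]
    have h6 : |e * (|x0| + |R| + 1)| = |x0| + |R| + 1 := by
      rw [abs_mul, he1, one_mul, abs_of_nonneg (by positivity)]
    have h7 : |e * (|x0| + |R| + 1)| ≤ |x0 + e * (|x0| + |R| + 1)| + |x0| := by
      have := abs_sub (x0 + e * (|x0| + |R| + 1)) x0
      have h8 : x0 + e * (|x0| + |R| + 1) - x0 = e * (|x0| + |R| + 1) := by ring
      rw [h8] at this
      exact this
    have h9 := le_abs_self R
    linarith
  have hd1 : (f.coeff 1).totalDegree ≤ 1 := by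
    by_cases h : f.coeff 1 = 0
    · rw [h, totalDegree_zero]; omega
    · have := hc 1 h
      omega
  have hd0 : (f.coeff 0).totalDegree ≤ 2 := by
    by_cases h : f.coeff 0 = 0
    · rw [h, totalDegree_zero]; omega
    · have := hc 0 h
      omega
  refine ⟨f.coeff 0 - C (1 / (4 * a)) * (f.coeff 1 * f.coeff 1), ?_, ?_⟩
  · refine (totalDegree_sub _ _).trans (max_le hd0 ?_)
    refine (totalDegree_mul _ _).trans ?_
    rw [totalDegree_C, zero_add]
    exact (totalDegree_mul _ _).trans (by omega)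
  · intro s
    set b := eval s (f.coeff 1) with hb
    set c := eval s (f.coeff 0) with hc'
    have hq : eval s (f.coeff 0 - C (1 / (4 * a)) * (f.coeff 1 * f.coeff 1)) =
        c - 1 / (4 * a) * (b * b) := by
      simp [hb, hc']
    rw [hq]
    have hane : a ≠ 0 := ha0.ne
    constructor
    · rintro ⟨x, hx⟩
      rw [hev] at hx
      have h1 : c - 1 / (4 * a) * (b * b) =
          (a * x ^ 2 + b * x + c) - a * (x + b / (2 * a)) ^ 2 := by
        field_simp
        ring
      rw [h1]
      have h2 : a * (x + b / (2 * a)) ^ 2 ≤ 0 :=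
        mul_nonpos_of_nonpos_of_nonneg ha0.le (sq_nonneg _)
      linarith
    · intro h
      refine ⟨-b / (2 * a), ?_⟩
      rw [hev]
      have h1 : a * (-b / (2 * a)) ^ 2 + b * (-b / (2 * a)) + c = c - 1 / (4 * a) * (b * b) := by
        field_simp
        ring
      change 0 ≤ a * (-b / (2 * a)) ^ 2 + b * (-b / (2 * a)) + c
      rw [h1]
      exact h

/-- renumbering -/
def gg (k m : ℕ) : Fin (k + 1) ⊕ Fin m → Fin (k + m + 1) :=
  Sum.elim (Fin.cases 0 fun i => (finSumFinEquiv (Sum.inl i)).succ)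
    (fun j => (finSumFinEquiv (Sum.inr j)).succ)

theorem gg_surj (k m : ℕ) : Function.Surjective (gg k m) := by
  intro i
  refine Fin.cases ?_ (fun j => ?_) i
  · exact ⟨Sum.inl 0, rfl⟩
  · obtain ⟨a, rfl⟩ := (finSumFinEquiv (m := k) (n := m)).surjective j
    rcases a with a | a
    · exact ⟨Sum.inl a.succ, rfl⟩
    · exact ⟨Sum.inr a, rfl⟩

theorem cons_gg (k m : ℕ) (x0 : ℝ) (x : Fin k → ℝ) (y : Fin m → ℝ) :
    (Fin.cons x0 (Sum.elim x y ∘ finSumFinEquiv.symm) : Fin (k + m + 1) → ℝ) ∘ gg k m =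
      Sum.elim (Fin.cons x0 x : Fin (k + 1) → ℝ) y := by
  funext a
  rcases a with a | a
  · refine Fin.cases ?_ (fun j => ?_) a
    · rfl
    · simp [gg]
  · simp [gg]

/-- elimination of all variables of the first block -/
theorem elim_many (m : ℕ) : ∀ (k : ℕ) (P : MvPolynomial (Fin k ⊕ Fin m) ℝ), P.totalDegree ≤ 2 →
    Bd P → ∃ Q : MvPolynomial (Fin m) ℝ, Q.totalDegree ≤ 2 ∧
      ∀ y : Fin m → ℝ, (∃ x : Fin k → ℝ, 0 ≤ eval (Sum.elim x y) P) ↔ 0 ≤ eval y Q := by
  intro k
  induction k with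
  | zero =>
    intro P hP _
    refine ⟨rename (Sum.elim Fin.elim0 id) P, (totalDegree_rename_le _ _).trans hP, ?_⟩
    intro y
    have h : ∀ x : Fin 0 → ℝ, y ∘ (Sum.elim Fin.elim0 id : Fin 0 ⊕ Fin m → Fin m) =
        Sum.elim x y := by
      intro x
      funext a
      rcases a with a | a
      · exact a.elim0
      · rfl
    rw [eval_rename]
    constructor
    · rintro ⟨x, hx⟩
      rw [h x]; exact hx
    · intro hx
      exact ⟨Fin.elim0, by rw [← h]; exact hx⟩
  | succ k ih =>
    intro P hP hb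
    obtain ⟨R, hR⟩ := hb
    have hb' : Bd (rename (gg k m) P) := by
      refine ⟨R, ?_⟩
      intro p hp i
      rw [eval_rename] at hp
      obtain ⟨a, rfl⟩ := gg_surj k m i
      exact hR _ hp a
    obtain ⟨Q1, hQ1, hQ1'⟩ := elim_one (rename (gg k m) P)
      ((totalDegree_rename_le _ _).trans hP) hb'
    obtain ⟨Q, hQ, hQ'⟩ := ih (rename finSumFinEquiv.symm Q1)
      ((totalDegree_rename_le _ _).trans hQ1) (by
        refine ⟨R, ?_⟩
        intro p hp a
        rw [eval_rename, ← hQ1'] at hp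
        obtain ⟨x, hx⟩ := hp
        obtain ⟨R', hR'⟩ := hb'
        rw [eval_rename] at hx
        have hp2 : p ∘ finSumFinEquiv.symm = Sum.elim (fun i => p (Sum.inl i))
            (fun j => p (Sum.inr j)) ∘ finSumFinEquiv.symm := by
          congr 1
          funext b
          rcases b with b | b <;> rfl
        rw [hp2, cons_gg] at hx
        have h1 := hR _ hx
        rcases a with a | a
        · have := h1 (Sum.inl a.succ)
          simpa using this
        · have := h1 (Sum.inr a)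
          simpa using this)
    refine ⟨Q, hQ, ?_⟩
    intro y
    rw [← hQ']
    constructor
    · rintro ⟨x, hx⟩
      refine ⟨Fin.tail x, ?_⟩
      rw [eval_rename, ← hQ1']
      refine ⟨x 0, ?_⟩
      rw [eval_rename, cons_gg, Fin.cons_self_tail]
      exact hx
    · rintro ⟨x, hx⟩
      rw [eval_rename, ← hQ1'] at hx
      obtain ⟨x0, hx0⟩ := hx
      rw [eval_rename, cons_gg] at hx0
      exact ⟨_, hx0⟩

end Pool.Agent.Y601.QP
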