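import Pool.Agent.H694R2.QuadQF

set_option autoImplicit false

/-!
# Three quadratic inequalities suffice

Helper file.  The equation `z ^ 2 + |y| ^ 2 = 1` of the system `PP` of four inequalities is replaced
by the inequality `z ^ 2 + |y| ^ 2 ≤ 1`.
-/

namespace Pool.Agent.Y601.QP

open MvPolynomial Filter Topology Pool.Agent.H694R2.Quad

variable {m : ℕ}

/-- the system of three inequalities -/
noncomputable def PT : Fin 3 → MvPolynomial (Xi m ⊕ Fin m) ℝ := ![P1, P3, P4]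

theorem deg_PT (i : Fin 3) : (PT i : MvPolynomial (Xi m ⊕ Fin m) ℝ).totalDegree ≤ 2 := by
  fin_cases i
  · exact deg_P1
  · exact deg_P3
  · exact deg_P4

/-- the set defined by the system -/
def ST (m : ℕ) : Set (Xi m ⊕ Fin m → ℝ) := {p | ∀ i, 0 ≤ eval p (PT i)}

theorem mem_ST {p : Xi m ⊕ Fin m → ℝ} : p ∈ ST m ↔
    p (Sum.inl none) ^ 2 + ∑ i, p (Sum.inr i) ^ 2 ≤ 1 ∧
    ∑ l, ∑ o, p (Sum.inl (some (l, o))) ^ 2 ≤ r0 m ∧ c0 m + ∑ l, (nd l *
      (∑ o, p (Sum.inl (some (l, o))) ^ 2) - 2 * ∑ o, bb (fun i => p (Sum.inr i))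
      (p (Sum.inl none)) l o * p (Sum.inl (some (l, o)))) ≤ 0 := by
  have h1 := eval_P1 p
  have h3 := eval_P3 p
  have h4 := eval_P4 p
  constructor
  · intro h
    have g1 : 0 ≤ eval p P1 := h 0
    have g3 : 0 ≤ eval p P3 := h 1
    have g4 : 0 ≤ eval p P4 := h 2
    refine ⟨?_, ?_, ?_⟩
    · linarith
    · linarith
    · linarith
  · rintro ⟨g1, g2, g3⟩ i
    fin_cases i
    · change 0 ≤ eval p P1
      linarith
    · change 0 ≤ eval p P3
      linarith
    · change 0 ≤ eval p P4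
      linarith

theorem SS_subset : SS m ⊆ ST m := by
  intro p hp
  obtain ⟨h1, h2, h3⟩ := mem_SS.1 hp
  exact mem_ST.2 ⟨h1.le, h2, h3⟩

theorem bb_normsq_le {y : Fin m → ℝ} {z : ℝ} (h : z ^ 2 + ∑ i, y i ^ 2 ≤ 1) (l : Fin m) :
    ∑ o, bb y z l o ^ 2 ≤ Bl y l := by
  rw [Fintype.sum_option]
  unfold Bl Kc
  simp only [bb]
  have h1 : ∑ i, (y i + kap l i / 2) ^ 2 = ∑ i, y i ^ 2 + (∑ i, kap l i * y i +
      ∑ i, kap l i ^ 2 / 4) := by
    rw [← Finset.sum_add_distrib, ← Finset.sum_add_distrib]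
    apply Finset.sum_congr rfl
    intro i _
    ring
  rw [h1]
  linarith

/-- **Weak duality.** -/
theorem Phi_nonneg3 {p : Xi m ⊕ Fin m → ℝ} (hp : p ∈ ST m) {t : ℝ} (ht : 0 < t) :
    0 ≤ Phi (fun i => p (Sum.inr i)) t := by
  obtain ⟨h1, h2, h3⟩ := mem_ST.1 hp
  set y : Fin m → ℝ := fun i => p (Sum.inr i) with hy
  set z := p (Sum.inl none) with hz
  set x : Fin m → Option (Fin m) → ℝ := fun l o => p (Sum.inl (some (l, o))) with hx
  have h3' : c0 m + ∑ l, (nd l * (∑ o, x l o ^ 2) - 2 * ∑ o, bb y z l o * x l o) ≤ 0 := h3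
  have h2' : ∑ l, ∑ o, x l o ^ 2 ≤ r0 m := h2
  have key : ∀ l, 2 * ∑ o, bb y z l o * x l o ≤ (nd l + t) * ∑ o, x l o ^ 2 +
      Bl y l / (nd l + t) := by
    intro l
    have hpos : 0 < nd l + t := by have := nd_pos l; positivity
    have hB : (∑ o, bb y z l o ^ 2) / (nd l + t) ≤ Bl y l / (nd l + t) :=
      div_le_div_of_nonneg_right (bb_normsq_le h1 l) hpos.le
    refine le_trans ?_ (add_le_add_right hB _)
    rw [Finset.mul_sum, Finset.mul_sum, Finset.sum_div, ← Finset.sum_add_distrib]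
    apply Finset.sum_le_sum
    intro o _
    have h5 : (nd l + t) * x l o ^ 2 + bb y z l o ^ 2 / (nd l + t) -
        2 * (bb y z l o * x l o) = ((nd l + t) * x l o - bb y z l o) ^ 2 / (nd l + t) := by
      field_simp
      ring
    have h6 : 0 ≤ ((nd l + t) * x l o - bb y z l o) ^ 2 / (nd l + t) := by positivity
    linarith
  have h4 : ∑ l, 2 * ∑ o, bb y z l o * x l o ≤ ∑ l, ((nd l + t) * ∑ o, x l o ^ 2 +
      Bl y l / (nd l + t)) := Finset.sum_le_sum fun l _ => key l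
  rw [Finset.sum_add_distrib] at h4
  rw [Finset.sum_sub_distrib] at h3'
  have h5 : ∑ l, (nd l + t) * ∑ o, x l o ^ 2 = ∑ l, nd l * ∑ o, x l o ^ 2 +
      t * ∑ l, ∑ o, x l o ^ 2 := by
    rw [Finset.mul_sum, ← Finset.sum_add_distrib]
    apply Finset.sum_congr rfl
    intro l _
    ring
  have h6 : t * ∑ l, ∑ o, x l o ^ 2 ≤ t * r0 m := mul_le_mul_of_nonneg_left h2' ht.le
  unfold Phi
  linarith

theorem ST_bound {p : Xi m ⊕ Fin m → ℝ} (hp : p ∈ ST m) (a : Xi m ⊕ Fin m) :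
    |p a| ≤ r0 m + 1 := by
  obtain ⟨h1, h2, _⟩ := mem_ST.1 hp
  have hr : 0 ≤ r0 m := by
    unfold r0
    apply Finset.sum_nonneg
    intro l _
    have := Kc_pos l
    positivity
  rw [abs_le]
  rcases a with (_ | ⟨l, o⟩) | i
  · have : 0 ≤ ∑ i, p (Sum.inr i) ^ 2 := Finset.sum_nonneg fun i _ => sq_nonneg _
    constructor <;> nlinarith
  · have g1 : p (Sum.inl (some (l, o))) ^ 2 ≤ ∑ o, p (Sum.inl (some (l, o))) ^ 2 :=
      Finset.single_le_sum (f := fun o => p (Sum.inl (some (l, o))) ^ 2)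
        (fun o _ => sq_nonneg _) (Finset.mem_univ o)
    have g2 : ∑ o, p (Sum.inl (some (l, o))) ^ 2 ≤ ∑ l, ∑ o, p (Sum.inl (some (l, o))) ^ 2 :=
      Finset.single_le_sum (f := fun l => ∑ o, p (Sum.inl (some (l, o))) ^ 2)
        (fun l _ => Finset.sum_nonneg fun o _ => sq_nonneg _) (Finset.mem_univ l)
    constructor <;> nlinarith
  · have g1 : p (Sum.inr i) ^ 2 ≤ ∑ i, p (Sum.inr i) ^ 2 :=
      Finset.single_le_sum (f := fun i => p (Sum.inr i) ^ 2)
        (fun o _ => sq_nonneg _) (Finset.mem_univ i)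
    constructor <;> nlinarith [sq_nonneg (p (Sum.inl none))]

/-- the projection -/
def projT (m : ℕ) : Set (Fin m → ℝ) := {y | ∃ x : Xi m → ℝ, Sum.elim x y ∈ ST m}

theorem root_of_double3 (i0 : Fin m) (hi0 : (i0 : ℕ) = 0) (φ : QF m)
    (hφ : ∀ y, φ.Holds y ↔ y ∈ projT m) {y : Fin m → ℝ} {t : ℝ} (ht : 0 < t)
    (hy : ∑ i, y i ^ 2 ≤ 1) (h0 : Phi y t = 0) (h1 : Phi' y t = 0) :
    ∃ Q ∈ φ.polys, Q ≠ 0 ∧ eval y Q = 0 := by
  by_contra hno
  push Not at hno
  have hlc := φ.locally_const y hno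
  have hmem : y ∈ projT m := by
    obtain ⟨x, hx⟩ := exists_mem ht hy h0 h1
    exact ⟨x, SS_subset hx⟩
  have hcont : Tendsto (fun s : ℝ => Function.update y i0 (y i0 - s)) (𝓝[>] 0) (𝓝 y) := by
    have h2 : Continuous fun s : ℝ => Function.update y i0 (y i0 - s) :=
      continuous_const.update i0 (continuous_const.sub continuous_id)
    have h3 := h2.tendsto 0
    simp only [sub_zero, Function.update_eq_self] at h3
    exact h3.mono_left nhdsWithin_le_nhds
  have h4 := hcont.eventually hlc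
  have h5 : ∀ᶠ s : ℝ in 𝓝[>] 0, 0 < s := self_mem_nhdsWithin
  obtain ⟨s, hs1, hs2⟩ := (h4.and h5).exists
  rw [hφ, hφ] at hs1
  obtain ⟨x, hx⟩ := hs1.2 hmem
  have h6 := Phi_nonneg3 hx ht
  have h7 : (fun i => Sum.elim x (Function.update y i0 (y i0 - s)) (Sum.inr i)) =
      Function.update y i0 (y i0 - s) := rfl
  rw [h7, Phi_lower y i0 hi0 ht s, h0] at h6
  have h8 : 0 < s / (Polynomial.eval t (Apol m)) := div_pos hs2 (Apol_pos m ht)
  linarith

/-- **Some polynomial of the formula vanishes on the whole discriminant.** -/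
theorem exists_vanish3 (i0 i1 : Fin m) (hi0 : (i0 : ℕ) = 0) (hi1 : (i1 : ℕ) = 1) (φ : QF m)
    (hφ : ∀ y, φ.Holds y ↔ y ∈ projT m) :
    ∃ Q ∈ φ.polys, Q ≠ 0 ∧ ∀ (t : ℝ) (y : Fin m → ℝ), (GG y).eval t = 0 →
      (GG y).derivative.eval t = 0 → eval y Q = 0 := by
  classical
  have h01 : i0 ≠ i1 := by
    intro h
    rw [h, hi1] at hi0
    exact one_ne_zero hi0
  let θ0 : Fin m → ℝ := fun i => if i = i0 then 1 else 0
  have hθ0 : θ0 i0 = 1 := by simp [θ0]
  have hθ1 : ∀ i ∈ (Finset.univ.erase i0).erase i1, θ0 i = 0 := by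
    intro i hi
    rw [Finset.mem_erase, Finset.mem_erase] at hi
    simp [θ0, hi.2.1]
  have z1 : eval θ0 (psi1 i0 i1) = 0 := by
    rw [eval_psi1, hθ0, N0_deriv_one, Finset.sum_eq_zero]
    · simp
    · intro i hi
      rw [hθ1 i hi]; simp
  have z0 : eval θ0 (psi0 i0 i1) = 0 := by
    rw [eval_psi0, z1, hθ0, N0_one, Finset.sum_eq_zero]
    · simp
    · intro i hi
      rw [hθ1 i hi]; simp
  have zz : ∀ i, eval θ0 (psi i0 i1 i) = 0 := by
    intro i
    unfold psi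
    split_ifs with c1 c2
    · exact z0
    · exact z1
    · rw [eval_X]; simp [θ0, c1]
  have hU : ∀ᶠ θ in 𝓝 θ0, 0 < θ i0 ∧ ∑ i, (eval θ (psi i0 i1 i)) ^ 2 < 1 := by
    apply Filter.Eventually.and
    · have : ContinuousAt (fun θ : Fin m → ℝ => θ i0) θ0 := (continuous_apply i0).continuousAt
      apply this.eventually_const_lt
      change (0 : ℝ) < θ0 i0
      rw [hθ0]; exact one_pos
    · have : ContinuousAt (fun θ : Fin m → ℝ => ∑ i, (eval θ (psi i0 i1 i)) ^ 2) θ0 := by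
        apply Continuous.continuousAt
        apply continuous_finsetSum
        intro i _
        exact (MvPolynomial.continuous_eval _).pow 2
      apply this.eventually_lt_const
      simp only [zz]
      simp
  rw [Metric.eventually_nhds_iff] at hU
  obtain ⟨ε, hε, hU⟩ := hU
  let Pr : MvPolynomial (Fin m) ℝ := ((φ.polys.filter (fun Q => Q ≠ 0)).map (bind₁ (psi i0 i1))).prod
  have hPr : Pr = 0 := by
    apply MvPolynomial.funext_set (fun i => Set.Ioo (θ0 i - ε / 2) (θ0 i + ε / 2))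
    · intro i
      apply Set.Ioo_infinite
      linarith
    · intro θ hθ
      rw [map_zero]
      have hd : dist θ θ0 < ε := by
        rw [dist_pi_lt_iff hε]
        intro i
        have := hθ i (Set.mem_univ _)
        simp only [Set.mem_Ioo] at this
        rw [Real.dist_eq, abs_lt]
        constructor <;> linarith
      obtain ⟨u1, u2⟩ := hU hd
      obtain ⟨r0', r1'⟩ := psi_root i0 i1 hi0 hi1 θ
      obtain ⟨p0, p1⟩ := Phi_of_GG u1 r0' r1'
      obtain ⟨Q, hQ, hQ0, hQe⟩ := root_of_double3 i0 hi0 φ hφ u1 u2.le p0 p1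
      simp only [Pr]
      rw [map_list_prod, List.prod_eq_zero_iff]
      rw [List.map_map, List.mem_map]
      refine ⟨Q, ?_, ?_⟩
      · rw [List.mem_filter]
        exact ⟨hQ, by simpa using hQ0⟩
      · rw [Function.comp_apply, ← hQe]
        have := MvPolynomial.eval₂Hom_bind₁ (RingHom.id ℝ) θ (psi i0 i1) Q
        exact this
  have h2 : (0 : MvPolynomial (Fin m) ℝ) ∈
      (φ.polys.filter (fun Q => Q ≠ 0)).map (bind₁ (psi i0 i1)) := by
    rw [← List.prod_eq_zero_iff]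
    exact hPr
  rw [List.mem_map] at h2
  obtain ⟨Q, hQ, hQ0⟩ := h2
  rw [List.mem_filter] at hQ
  refine ⟨Q, hQ.1, by simpa using hQ.2, ?_⟩
  intro t y g0 g1
  have h3 := psi_surj i0 i1 hi0 hi1 g0 g1
  have h4 := MvPolynomial.eval₂Hom_bind₁ (RingHom.id ℝ) (Function.update y i0 t) (psi i0 i1) Q
  have h5 : eval (fun i => eval (Function.update y i0 t) (psi i0 i1 i)) Q = 0 := by
    have h6 : eval (Function.update y i0 t) (bind₁ (psi i0 i1) Q) = 0 := by
      rw [hQ0, map_zero]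
    rw [← h6]
    exact h4.symm
  rw [h3] at h5
  exact h5

/-- **Exponential lower bound.** -/
theorem exp_lower3 {r : ℕ} (hr : 1 ≤ r) (φ : QF (3 * r))
    (hφ : ∀ y, φ.Holds y ↔ y ∈ projT (3 * r)) : ∃ Q ∈ φ.polys, 2 ^ r ≤ Q.support.card := by
  obtain ⟨Q, hQ, hQ0, h⟩ := exists_vanish3 (⟨0, by omega⟩ : Fin (3 * r)) ⟨1, by omega⟩ rfl rfl φ hφ
  refine ⟨Q, hQ, root_card r (N0 (3 * r)) Q hQ0 ?_⟩
  intro t y ht g0 g1
  apply h t y
  · rw [GG_eval']; exact g0
  · rw [GG_deriv_eval']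
    have : ((N0 (3 * r)).derivative.eval t +
        ∑ i : Fin (3 * r), ((i : ℕ) : ℝ) * y i * t ^ ((i : ℕ) - 1)) * t = 0 := by
      rw [add_mul, Finset.sum_mul, ← g1]
      congr 1
      apply Finset.sum_congr rfl
      intro i _
      rcases Nat.eq_zero_or_pos (i : ℕ) with hi | hi
      · rw [hi]; simp
      · obtain ⟨n, hn⟩ := Nat.exists_eq_succ_of_ne_zero hi.ne'
        rw [hn]
        simp only [Nat.succ_eq_add_one, Nat.add_sub_cancel]
        ring
    exact (mul_eq_zero.1 this).resolve_right ht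

end Pool.Agent.Y601.QP
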